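import Pool.Agent.H426AM.Final

open Finset

/-!
Unconditional lower bound for the variance `G(X,k)` of primes in the reduced residue classes
modulo `k`, for almost all moduli `k`, simultaneously for all `X ≥ k`.
-/

namespace Pool.Agent.Results.MP_5dd4bb_nt.AlmostAllModuli

open Classical in
/-- For every `ε > 0` there are `κ > 0` and `K₀` such that for all integers `K ≥ K₀`: for all but
at most `K^(1-κ)` integers `k` in `(K, 2K]` and for every real `X ≥ k`,
`G(X,k) ≥ X (log k - 1/2 log X - ε log X)`. -/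
theorem result (ε : ℝ) (hε : 0 < ε) : ∃ κ K₀ : ℝ, 0 < κ ∧ ∀ K : ℕ, K₀ ≤ K →
    (((Ioc K (2 * K)).filter (fun k : ℕ => ∃ X : ℝ, (k : ℝ) ≤ X ∧
      ∑ A ∈ (range k).filter (fun A => A.Coprime k),
        ((∑ n ∈ (Icc 1 ⌊X⌋₊).filter (fun n => n ≡ A [MOD k]), ArithmeticFunction.vonMangoldt n)
          - X / Nat.totient k) ^ 2
      < X * (Real.log k - 1 / 2 * Real.log X - ε * Real.log X))).card : ℝ) ≤
      (K : ℝ) ^ (1 - κ) :=
  H426AM.main ε hε

end Pool.Agent.Results.MP_5dd4bb_nt.AlmostAllModuli
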